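import Mathlib
import Pool.Agent.Lib.MP_fe8cb7_co.h48.FracSharp

/-!
# The fractional Daykin-Haggkvist theorem at the endpoint `1/4`, for every `n`

Every `1/4`-dense precolouring of `K_{n,n}`, for every `n`, has a fractional extension; for every
`α > 1/4` there are `α`-dense precolourings of arbitrarily large order without one.

Sketch of the proof. The uncoloured edges, the missing colours of the left vertices and the missing
colours of the right vertices form a balanced tripartite graph `G` with parts of size `n` in which
every vertex has at most `n / 4` missing neighbours in each other part, and a fractional extension is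
a fractional triangle decomposition of `G`. Let `W` minimise the sum of `(load - 1) ^ 2` over all
triangle weights between `0` and `1`, and `f = load - 1`. Then the sum of `f` is at most
the negative of the sum of `f ^ 2`, and `f ≥ 0` on every triangle (a triangle with `f < 0` would have
weight `1` in its three rotations, and then a load at least `3`). The inequality `∑ f ≥ 0` for such
`f` is shown at the minimiser `k` of `∑ f k + ∑ u ^ 4 / 4` over circulations (`u` = degree of `k`):
the triangle `xyz` gets the weight `k_xy * (3 / 4) * (u_x ^ 2 + u_y ^ 2) / (u_x ^ 3 + u_y ^ 3 + u_z ^ 3)`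
from its edge `xy`; an elementary inequality shows that the load is at most `1` where `k = 0`, and the
first order condition in the direction `1 - load` gives `∑ f ≥ 0`. Hence `f = 0`.

Sharpness: in a fractional Latin square of order `2h` the cells whose row, column and symbol are in the
same half have total weight exactly `h ^ 2`.
-/

namespace Pool.Agent.Results.MP_fe8cb7_co.FractionalQuarter

/-- `f` is a precolouring of `K_{n,n}` (`f i j = some s`: the edge between the left vertex `i` and
the right vertex `j` has colour `s`; `f i j = none`: it has no colour); adjacent precoloured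
edges have different colours. -/
def Proper {n : ℕ} (f : Fin n → Fin n → Option (Fin n)) : Prop :=
  (∀ i j j' s, f i j = some s → f i j' = some s → j = j') ∧
    (∀ i i' j s, f i j = some s → f i' j = some s → i = i')

/-- each colour appears on at most `α n` edges and each vertex meets at most `α n` precoloured
edges -/
def Dense {n : ℕ} (α : ℝ) (f : Fin n → Fin n → Option (Fin n)) : Prop :=
  (∀ s : Fin n,
    (((Finset.univ : Finset (Fin n × Fin n)).filter (fun p => f p.1 p.2 = some s)).card : ℝ)
      ≤ α * n) ∧
    (∀ i : Fin n,
      (((Finset.univ : Finset (Fin n)).filter (fun j => f i j ≠ none)).card : ℝ) ≤ α * n) ∧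
    (∀ j : Fin n,
      (((Finset.univ : Finset (Fin n)).filter (fun i => f i j ≠ none)).card : ℝ) ≤ α * n)

/-- there are weights `w i j s ≥ 0` (`w i j s` = fraction of colour `s` on the edge `i j`) such that
every edge gets total weight `1`, every colour has total weight `1` at every left and at every right
vertex, and `w i j s = 1` whenever `f` gives the edge `i j` the colour `s` -/
def FracExtends {n : ℕ} (f : Fin n → Fin n → Option (Fin n)) : Prop :=
  ∃ w : Fin n → Fin n → Fin n → ℝ, (∀ i j s, 0 ≤ w i j s) ∧ (∀ i j, ∑ s, w i j s = 1) ∧
    (∀ i s, ∑ j, w i j s = 1) ∧ (∀ j s, ∑ i, w i j s = 1) ∧ ∀ i j s, f i j = some s → w i j s = 1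

theorem result :
    (∀ (n : ℕ) (f : Fin n → Fin n → Option (Fin n)), Proper f → Dense (1 / 4) f →
      FracExtends f) ∧
    ∀ α : ℝ, 1 / 4 < α → ∀ n0 : ℕ, ∃ n : ℕ, n0 ≤ n ∧ ∃ f : Fin n → Fin n → Option (Fin n),
      Proper f ∧ Dense α f ∧ ¬ FracExtends f :=
  ⟨fun _ _ hf hd => DH.fracExt_quarter hf hd, fun α hα n0 => DH.not_fracExt α hα n0⟩

end Pool.Agent.Results.MP_fe8cb7_co.FractionalQuarter
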