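import Mathlib
import Pool.Agent.Lib.MP_fe8cb7_co.h77.Final

/-!
# The Daykin-Haggkvist problem on dense precolourings of `K_{n,n}`: the optimal value is `1/4`

Every `α < 1/4` is admissible and no `α > 1/4` is admissible.

Sketch of the proof that every `α < 1/4` is admissible. The uncoloured edges, the missing colours of
the left vertices and the missing colours of the right vertices form a balanced tripartite graph `G`
with parts of size `n` in which every vertex has at most `α n` missing neighbours in each other
part, and an extension of the precolouring is a decomposition of `G` into triangles.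

1. Fractional theorem: if every vertex has at most `c N` missing neighbours in each other part (the
   same number in both) and `c < 1/4`, then `G` has a fractional triangle decomposition with weights
   `O(1/N)`. It is enough to show `∑ f ≥ 0` for every edge weighting `f` which is `≥ 0` on every
   triangle. Minimise `∑ f k + ∑ u ^ 4 / 4` over the circulations `k ≥ 0` on `G` (`u` = degree of
   `k`). In the minimum `f = p - (u_x ^ 3 + u_y ^ 3) / 2` up to a gauge, `p ≥ 0`, `p = 0` where
   `k > 0`, and `p ≥ ∑ u ^ 3` on every triangle. The triangle `xyz` gets the
   weight `k_xy * (3 / 4) * (u_x ^ 2 + u_y ^ 2) / (u_x ^ 3 + u_y ^ 3 + u_z ^ 3)` from its edge `xy`;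
   the total weight on an edge with `k = 0` is at most `1` by an elementary inequality, and
   the resulting lower bound for `∑ p` gives `∑ f ≥ 0`.
2. Nibble: a fractional decomposition with weights `O(1/N)` gives a packing with small leftover.
3. Cover-down: in a nested sequence of vertex sets all edges outside of the next set are covered; the
   leftover edges at a vertex are finished by a perfect matching between a row and a column of a
   grid of cells.
4. Absorbers: a balanced leftover on the last (bounded) set is an edge-disjoint union of directed
   cycles, for each of which an absorber was set aside; each new vertex of an absorber has at most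
   four earlier neighbours.

No `α > 1/4` is admissible: `n = 2h`, `h` odd; in the two diagonal blocks `h × h`
more than `n / 4` cells of every row and column are filled with symbols of their own half, each of
these symbols being used equally often. In a Latin square of order `2h` exactly `h ^ 2` cells have
their row, column and symbol in the same half.
-/

namespace Pool.Agent.Results.MP_fe8cb7_co.OptimalValue

/-- `f` is a precolouring of `K_{n,n}` (`f i j = some s`: the edge between the left vertex `i` and
the right vertex `j` has colour `s`; `f i j = none`: it has no colour); adjacent precoloured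
edges have different colours. -/
def Proper {n : ℕ} (f : Fin n → Fin n → Option (Fin n)) : Prop :=
  (∀ i j j' s, f i j = some s → f i j' = some s → j = j') ∧
    (∀ i i' j s, f i j = some s → f i' j = some s → i = i')

/-- each colour appears on at most `α n` edges and each vertex meets at most `α n` precoloured
edges -/
def Dense {n : ℕ} (α : ℝ) (f : Fin n → Fin n → Option (Fin n)) : Prop :=
  (∀ s : Fin n,
    (((Finset.univ : Finset (Fin n × Fin n)).filter (fun p => f p.1 p.2 = some s)).card : ℝ)
      ≤ α * n) ∧
    (∀ i : Fin n,
      (((Finset.univ : Finset (Fin n)).filter (fun j => f i j ≠ none)).card : ℝ) ≤ α * n) ∧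
    (∀ j : Fin n,
      (((Finset.univ : Finset (Fin n)).filter (fun i => f i j ≠ none)).card : ℝ) ≤ α * n)

/-- there is a proper `n`-edge colouring `g` of `K_{n,n}` which agrees with `f` -/
def Extends {n : ℕ} (f : Fin n → Fin n → Option (Fin n)) : Prop :=
  ∃ g : Fin n → Fin n → Fin n, (∀ i, Function.Injective (g i)) ∧
    (∀ j, Function.Injective (fun i => g i j)) ∧ ∀ i j s, f i j = some s → g i j = s

/-- `α` is admissible -/
def Admissible (α : ℝ) : Prop :=
  ∃ n0 : ℕ, ∀ n : ℕ, n0 ≤ n → ∀ f : Fin n → Fin n → Option (Fin n),
    Proper f → Dense α f → Extends f

theorem result :
    IsLUB {α : ℝ | 0 < α ∧ Admissible α} (1 / 4) ∧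
      (∀ α : ℝ, α < 1 / 4 → Admissible α) ∧ (∀ α : ℝ, 1 / 4 < α → ¬ Admissible α) :=
  ⟨DH.isLUB_of_FT DH.FT_holds, (DH.final_of_FT DH.FT_holds).1, (DH.final_of_FT DH.FT_holds).2.1⟩

end Pool.Agent.Results.MP_fe8cb7_co.OptimalValue
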